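import Pool.Agent.Helper21.DN.Stmts

/-!
MP_b6a655_nt: module FINT, the conductor of the twisted extension.
-/

set_option autoImplicit false

namespace Pool.Agent.Helper21.DN

universe u

/-- the prime field inside a ring of characteristic `p` -/
theorem fint_val (p : ℕ) [Fact p.Prime] (R : Type u) [Ring R] [CharP R p] (a : ZMod p) :
    ((a.val : ℕ) : R) = ZMod.castHom (dvd_refl p) R a := by
  rw [ZMod.natCast_val, ZMod.castHom_apply]

/-- the value at a constant from below of a power of `t` -/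
theorem fint_val_t (k : Type u) [Field k] (M : Type u) [Field M] [Algebra (LaurentSeries k) M]
    [FiniteDimensional (LaurentSeries k) M] :
    val k M (algebraMap (LaurentSeries k) M (HahnSeries.single (-1 : ℤ) (1 : k))) =
      ((-(Module.finrank (LaurentSeries k) M : ℤ) : ℤ) : WithTop ℤ) := by
  unfold val
  rw [Algebra.norm_algebraMap, HahnSeries.single_pow, one_pow,
    HahnSeries.orderTop_single one_ne_zero]
  congr 1
  simp

/-- elements with trivial additive part act trivially -/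
theorem fint_A {p g d : ℕ} [Fact p.Prime] {k : Type u} [Field k] [CharP k p] {P : Type} [Group P]
    {β : Multiplicative (Fin d → ZMod p) →* P} {A : P → Matrix (Fin d) (Fin d) (ZMod p)}
    {e z : Fin d → k} {ι : P → k} (hT : TwD p g d k P β A e z ι) (x : P) (hx : ι x = 0) :
    A x = 1 := by
  have key : ∀ i : Fin d, (fun j => A x i j - (1 : Matrix (Fin d) (Fin d) (ZMod p)) i j) = 0 := by
    intro i
    have hsum : ∀ c : Fin d → k, ∑ j, ((((A x i j - (1 : Matrix (Fin d) (Fin d) (ZMod p)) i j).val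
        : ℕ)) : k) * c j = (∑ j, (((A x i j).val : ℕ) : k) * c j) - c i := by
      intro c
      have h1 : ∑ j, ((((1 : Matrix (Fin d) (Fin d) (ZMod p)) i j).val : ℕ) : k) * c j = c i := by
        rw [Finset.sum_eq_single i]
        · rw [fint_val p k, Matrix.one_apply_eq, map_one, one_mul]
        · intro b _ hb
          rw [fint_val p k, Matrix.one_apply_ne (Ne.symm hb), map_zero, zero_mul]
        · intro h
          exact absurd (Finset.mem_univ i) h
      rw [← h1, ← Finset.sum_sub_distrib]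
      refine Finset.sum_congr rfl fun j _ => ?_
      rw [fint_val p k, fint_val p k, fint_val p k, map_sub]
      ring
    apply hT.hull
    · rw [hsum e, hT.ez x i, hx]
      ring
    · rw [hsum z, hT.zz x i]
      ring
  ext i j
  have := congrFun (key i) j
  exact sub_eq_zero.1 this

theorem st_FINT (hPREP : ST_PREP.{u}) (hTWH : ST_TWH.{u}) (hFI1 : ST_FI1.{u})
    (hFI2 : ST_FI2.{u}) (hFI3 : ST_FI3.{u}) (hQUO : ST_QUO.{u}) (hRFV : ST_RFV.{u}) :
    ST_FINT.{u} := by
  intro p _ hp2 k _ _ _ g d hg P _ _ hP β A e z ι hT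
  obtain ⟨c0, hc0⟩ := hPREP p k g d hg P hP β A e z ι hT
  refine ⟨max 2 (⌈c0⌉₊ + 1), ?_⟩
  intro n hn hpn hpn1
  have hn2 : 2 ≤ n := le_trans (le_max_left _ _) hn
  have hc0n : c0 < n := by
    have h1 : ⌈c0⌉₊ + 1 ≤ n := le_trans (le_max_right _ _) hn
    have h2 : c0 ≤ (⌈c0⌉₊ : ℝ) := Nat.le_ceil c0
    have h3 : ((⌈c0⌉₊ + 1 : ℕ) : ℝ) ≤ (n : ℝ) := by exact_mod_cast h1
    push_cast at h3
    linarith
  obtain ⟨M, hF, hA, hfd, hgal, v, w, y, ρ, hv, hRam, hPG, hρ, hw, hσw, hy, hc⟩ := hc0 n hpn1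
  have hinjκ : Function.Injective (κ0 k) := (κ0 k).injective
  have hinjM : Function.Injective (algebraMap (LaurentSeries k) M) :=
    (algebraMap (LaurentSeries k) M).injective
  have hKp : CharP (LaurentSeries k) p := charP_of_injective_ringHom hinjκ p
  have hMp : CharP M p := charP_of_injective_ringHom hinjM p
  -- the twisted homomorphism
  obtain ⟨b, ρ', hb, hρ'⟩ := hTWH p k g d P β A e z ι hT (LaurentSeries k) M (κ0 k) ρ w y
    ((HahnSeries.single (-1 : ℤ) (1 : k)) ^ n)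
    ((HahnSeries.single (-1 : ℤ) (1 : k)) ^ (n + 1) * κ0 k (((n : k) + 1)⁻¹)) hσw (by
      intro i
      rw [hy i, map_pow, map_mul, map_pow, ← hw])
  -- the valuation of `1 / t`
  have hvt : v (algebraMap (LaurentSeries k) M (HahnSeries.single (-1 : ℤ) (1 : k))) =
      ((-(Module.finrank (LaurentSeries k) M : ℤ) : ℤ) : WithTop ℤ) := by
    rw [hv]
    exact fint_val_t k M
  have hfq : ∀ σ : M ≃ₐ[LaurentSeries k] M, ι (ρ σ) ^ p ^ g = ι (ρ σ) := fun σ => hT.fq _
  have hsur : ∀ c : k, c ^ p ^ g = c → ∃ σ : M ≃ₐ[LaurentSeries k] M, ι (ρ σ) = c := by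
    intro c hc
    obtain ⟨x, hx⟩ := hT.surj c hc
    obtain ⟨σ, rfl⟩ := hρ x
    exact ⟨σ, hx⟩
  obtain ⟨_, _, _, _, _, hs1, _⟩ := hFI1 p k (LaurentSeries k) M (κ0 k) v hRam hPG g hg w
    (HahnSeries.single (-1 : ℤ) (1 : k)) (fun σ => ι (ρ σ)) hw hvt hσw hfq hsur
  have hRF := hRFV p k (LaurentSeries k) M (κ0 k) v hRam hPG
  -- fixing `w`
  have hfix : ∀ σ : M ≃ₐ[LaurentSeries k] M, σ w = w ↔ ι (ρ σ) = 0 := by
    intro σ
    constructor
    · intro h
      have h1 := hσw σ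
      rw [h] at h1
      have h2 : algebraMap (LaurentSeries k) M (κ0 k (ι (ρ σ))) = 0 := by
        have := h1.symm
        simpa using this
      exact hinjκ ((hinjM (h2.trans (map_zero _).symm)).trans (map_zero _).symm)
    · intro h
      rw [hσw σ, h, map_zero, map_zero, add_zero]
  -- the coordinates for the elements fixing `w`
  have hbσ : ∀ σ : M ≃ₐ[LaurentSeries k] M, ι (ρ σ) = 0 → ∀ i,
      (((b σ i).val : ℕ) : M) = σ (y i) - y i := by
    intro σ hσ i
    rw [hb σ i, fint_A hT (ρ σ) hσ]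
    congr 1
    rw [Finset.sum_eq_single i]
    · rw [fint_val p M, Matrix.one_apply_eq, map_one, one_mul]
    · intro j _ hj
      rw [fint_val p M, Matrix.one_apply_ne (Ne.symm hj), map_zero, zero_mul]
    · intro h
      exact absurd (Finset.mem_univ i) h
  have hcoord : ∀ (ψ : Fin d → ZMod p) (σ : M ≃ₐ[LaurentSeries k] M), ι (ρ σ) = 0 →
      ∑ i, (((ψ i).val : ℕ) : M) * (σ (y i) - y i) =
        ZMod.castHom (dvd_refl p) M (∑ i, ψ i * b σ i) := by
    intro ψ σ hσ
    rw [map_sum]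
    refine Finset.sum_congr rfl fun i _ => ?_
    rw [map_mul, ← hbσ σ hσ i, fint_val p M, fint_val p M]
  have hne : ∀ (ψ : Fin d → ZMod p) (σ : M ≃ₐ[LaurentSeries k] M), ι (ρ σ) = 0 →
      (∑ i, (((ψ i).val : ℕ) : M) * (σ (y i) - y i) ≠ 0 ↔ ∑ i, ψ i * b σ i ≠ 0) := by
    intro ψ σ hσ
    rw [hcoord ψ σ hσ, Ne, Ne, map_eq_zero_iff _ (RingHom.injective _)]
  obtain ⟨hsurj, hle, hex⟩ := hFI3 p k g d P β A e z ι hg hT (M ≃ₐ[LaurentSeries k] M)
    (fun σ => s v σ) hRF ρ ρ' b hρ hρ' c0 n (by omega) hc0n hc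
    (fun σ hσ => hs1 σ (fun h => hσ ((hfix σ).1 h)))
    (by
      intro ψ hψ
      have hψ' : (∑ i, (((ψ i).val : ℕ) : k) * z i ≠ 0 ∨ ∑ i, (((ψ i).val : ℕ) : k) * e i ≠ 0) := by
        by_contra hcon
        rw [not_or, not_not, not_not] at hcon
        exact hψ (hT.hull ψ hcon.2 hcon.1)
      obtain ⟨h1, σ, h2, h3, h4⟩ := hFI2 p hp2 k (LaurentSeries k) M (κ0 k) v hRam hPG g hg w
        (HahnSeries.single (-1 : ℤ) (1 : k)) (fun σ => ι (ρ σ)) hw hvt hσw hfq hsur n d e z y hn2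
        hpn hpn1 hy ψ hψ'
      have hσ0 : ι (ρ σ) = 0 := (hfix σ).1 h2
      refine ⟨?_, σ, hσ0, (hne ψ σ hσ0).1 h3, h4⟩
      intro τ hτ hτ'
      exact h1 τ ((hfix τ).2 hτ) ((hne ψ τ hτ).2 hτ'))
  exact hQUO p k M v hv hRam hPG P ρ' hsurj _ hle hex

end Pool.Agent.Helper21.DN
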