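import Pool.Agent.Helper21.DN.Stmts

/-!
MP_b6a655_nt: module VA, the valuation ring of a finite separable extension of `k((t))`.
-/

set_option autoImplicit false

namespace Pool.Agent.Helper21.DN

universe u

/-- the abstract statement: a discrete valuation ring and its fraction field -/
theorem va_dvr (B L : Type u) [CommRing B] [IsDomain B] [Field L] [Algebra B L]
    [IsFractionRing B L] [IsDiscreteValuationRing B] :
    (∀ x : L, (∃ b : B, algebraMap B L b = x) ∨ (∃ b : B, algebraMap B L b = x⁻¹)) ∧
    ∃ ϖ : B, Irreducible ϖ ∧ ∀ x : L, x ≠ 0 → ∃ (m : ℤ) (w : Bˣ),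
      x = algebraMap B L w * (algebraMap B L ϖ) ^ m := by
  obtain ⟨ϖ, hϖ⟩ := IsDiscreteValuationRing.exists_irreducible B
  have hϖ0 : algebraMap B L ϖ ≠ 0 := by
    intro h
    exact hϖ.ne_zero ((IsFractionRing.injective B L) (by rw [h, map_zero]))
  have key : ∀ x : L, x ≠ 0 → ∃ (m : ℤ) (w : Bˣ),
      x = algebraMap B L w * (algebraMap B L ϖ) ^ m := by
    intro x hx
    obtain ⟨a, b, hb, rfl⟩ := IsFractionRing.div_surjective (A := B) x
    have hb0 : b ≠ 0 := nonZeroDivisors.ne_zero hb
    have ha0 : a ≠ 0 := by
      rintro rfl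
      simp at hx
    obtain ⟨n, u, hu⟩ := IsDiscreteValuationRing.eq_unit_mul_pow_irreducible ha0 hϖ
    obtain ⟨n', u', hu'⟩ := IsDiscreteValuationRing.eq_unit_mul_pow_irreducible hb0 hϖ
    refine ⟨(n : ℤ) - (n' : ℤ), u * u'⁻¹, ?_⟩
    have hinv : algebraMap B L ((u'⁻¹ : Bˣ) : B) = (algebraMap B L (u' : B))⁻¹ := by
      apply eq_inv_of_mul_eq_one_left
      rw [← map_mul]
      simp
    rw [hu, hu', map_mul, map_mul, map_pow, map_pow, Units.val_mul, map_mul, hinv,
      zpow_sub₀ hϖ0, zpow_natCast, zpow_natCast]
    field_simp
  refine ⟨?_, ϖ, hϖ, key⟩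
  intro x
  by_cases hx : x = 0
  · left
    exact ⟨0, by rw [hx, map_zero]⟩
  · obtain ⟨m, w, hw⟩ := key x hx
    have hwinv : algebraMap B L ((w⁻¹ : Bˣ) : B) = (algebraMap B L (w : B))⁻¹ := by
      apply eq_inv_of_mul_eq_one_left
      rw [← map_mul]
      simp
    rcases le_total 0 m with hm | hm
    · left
      obtain ⟨n, rfl⟩ := Int.eq_ofNat_of_zero_le hm
      refine ⟨w * ϖ ^ n, ?_⟩
      rw [hw, map_mul, map_pow]
      simp
    · right
      obtain ⟨n, hn⟩ := Int.eq_ofNat_of_zero_le (neg_nonneg.2 hm)
      have hm' : m = -(n : ℤ) := by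
        have : -m = (n : ℤ) := hn
        omega
      subst hm'
      refine ⟨((w⁻¹ : Bˣ) : B) * ϖ ^ n, ?_⟩
      rw [hw, map_mul, map_pow, hwinv, zpow_neg, zpow_natCast, mul_inv, inv_inv]

theorem st_VA (hVA1 : ST_VA1.{u}) : ST_VA.{u} := by
  intro k _ _ L _ _ _ _
  -- the base ring
  let : Algebra (PowerSeries k) L := (strA k L).toAlgebra
  have : IsScalarTower (PowerSeries k) (LaurentSeries k) L :=
    IsScalarTower.of_algebraMap_eq' rfl
  have : IsAdicComplete (IsLocalRing.maximalIdeal (PowerSeries k)) (PowerSeries k) := by
    rw [PowerSeries.maximalIdeal_eq_span_X]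
    infer_instance
  have : IsAlgClosed (IsLocalRing.ResidueField (PowerSeries k)) :=
    IsAlgClosed.of_ringEquiv k _ (PowerSeries.residueFieldOfPowerSeries (k := k)).symm
  have : Module.Finite (PowerSeries k) (integralClosure (PowerSeries k) L) :=
    IsIntegralClosure.finite (PowerSeries k) (LaurentSeries k) L _
  obtain ⟨hloc, hres⟩ := hVA1 (PowerSeries k) (integralClosure (PowerSeries k) L)
  have := hloc
  have : IsDedekindDomain (integralClosure (PowerSeries k) L) :=
    integralClosure.isDedekindDomain (PowerSeries k) (LaurentSeries k) L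
  have : IsFractionRing (integralClosure (PowerSeries k) L) L :=
    integralClosure.isFractionRing_of_finite_extension (A := PowerSeries k) (LaurentSeries k) L
  have hinjA : Function.Injective (algebraMap (PowerSeries k)
      (integralClosure (PowerSeries k) L)) := by
    have h1 : Function.Injective (algebraMap (PowerSeries k) L) := by
      intro a b hab
      have h2 : algebraMap (LaurentSeries k) L (algebraMap (PowerSeries k) (LaurentSeries k) a) =
          algebraMap (LaurentSeries k) L (algebraMap (PowerSeries k) (LaurentSeries k) b) := hab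
      exact IsFractionRing.injective (PowerSeries k) (LaurentSeries k)
        ((algebraMap (LaurentSeries k) L).injective h2)
    intro a b hab
    apply h1
    have := congrArg (algebraMap (integralClosure (PowerSeries k) L) L) hab
    exact this
  have : Algebra.IsIntegral (PowerSeries k) (integralClosure (PowerSeries k) L) :=
    Algebra.IsIntegral.of_finite _ _
  have hX : ¬ IsUnit (algebraMap (PowerSeries k) (integralClosure (PowerSeries k) L)
      PowerSeries.X) := by
    intro h
    have : IsLocalHom (algebraMap (PowerSeries k) (integralClosure (PowerSeries k) L)) :=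
      (algebraMap_isIntegral_iff.2 inferInstance).isLocalHom hinjA
    have := IsUnit.of_map _ _ h
    exact PowerSeries.X_prime.not_isUnit this
  have hnf : ¬ IsField (integralClosure (PowerSeries k) L) := by
    intro h
    apply hX
    let := h.toField
    apply IsUnit.mk0
    intro h0
    have := hinjA (h0.trans (map_zero _).symm)
    exact PowerSeries.X_ne_zero this
  have : IsDiscreteValuationRing (integralClosure (PowerSeries k) L) :=
    (((IsDiscreteValuationRing.TFAE (integralClosure (PowerSeries k) L) hnf).out 0 2 :
      IsDiscreteValuationRing (integralClosure (PowerSeries k) L) ↔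
        IsDedekindDomain (integralClosure (PowerSeries k) L))).2 ‹_›
  obtain ⟨h1, ϖ, hϖ, h2⟩ := va_dvr (integralClosure (PowerSeries k) L) L
  have hmem : ∀ x : L, x ∈ (integralClosure (PowerSeries k) L).toSubring ↔
      (strA k L).IsIntegralElem x := fun x => Iff.rfl
  -- units
  have hunit : ∀ b : integralClosure (PowerSeries k) L, ¬ IsUnit b →
      (b : L) = 0 ∨ (b : L)⁻¹ ∉ (integralClosure (PowerSeries k) L).toSubring := by
    intro b hb
    by_cases h0 : (b : L) = 0
    · exact Or.inl h0
    · right
      intro hmem'
      apply hb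
      refine isUnit_iff_exists_inv.2 ⟨⟨(b : L)⁻¹, hmem'⟩, ?_⟩
      apply Subtype.ext
      exact mul_inv_cancel₀ h0
  refine ⟨(integralClosure (PowerSeries k) L).toSubring, hmem, ?_, ?_, ?_⟩
  · intro x
    rcases h1 x with ⟨b, hb⟩ | ⟨b, hb⟩
    · left
      rw [← hb]
      exact b.2
    · right
      rw [← hb]
      exact b.2
  · intro b hb
    obtain ⟨a, ha⟩ := hres ⟨b, hb⟩
    refine ⟨PowerSeries.constantCoeff a, ?_⟩
    have hX2 : PowerSeries.X ∣ a - PowerSeries.C (PowerSeries.constantCoeff a) := by
      rw [PowerSeries.X_dvd_iff]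
      simp
    obtain ⟨a', ha'⟩ := hX2
    have hnu : ¬ IsUnit ((⟨b, hb⟩ : integralClosure (PowerSeries k) L) -
        algebraMap (PowerSeries k) (integralClosure (PowerSeries k) L)
          (PowerSeries.C (PowerSeries.constantCoeff a))) := by
      have he : (⟨b, hb⟩ : integralClosure (PowerSeries k) L) -
          algebraMap (PowerSeries k) (integralClosure (PowerSeries k) L)
            (PowerSeries.C (PowerSeries.constantCoeff a)) =
          ((⟨b, hb⟩ : integralClosure (PowerSeries k) L) -
            algebraMap (PowerSeries k) (integralClosure (PowerSeries k) L) a) +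
          algebraMap (PowerSeries k) (integralClosure (PowerSeries k) L) PowerSeries.X *
            algebraMap (PowerSeries k) (integralClosure (PowerSeries k) L) a' := by
        rw [← map_mul, ← ha', map_sub]
        ring
      rw [he]
      have hn2 : ¬ IsUnit (algebraMap (PowerSeries k) (integralClosure (PowerSeries k) L)
          PowerSeries.X *
            algebraMap (PowerSeries k) (integralClosure (PowerSeries k) L) a') := by
        intro h
        exact hX (isUnit_of_mul_isUnit_left h)
      exact IsLocalRing.nonunits_add ha hn2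
    have hfin := hunit _ hnu
    have heq : (((⟨b, hb⟩ : integralClosure (PowerSeries k) L) -
        algebraMap (PowerSeries k) (integralClosure (PowerSeries k) L)
          (PowerSeries.C (PowerSeries.constantCoeff a)) : integralClosure (PowerSeries k) L) : L) =
        b - algebraMap (LaurentSeries k) L (κ0 k (PowerSeries.constantCoeff a)) := by
      have : (algebraMap (PowerSeries k) L) (PowerSeries.C (PowerSeries.constantCoeff a)) =
          algebraMap (LaurentSeries k) L (κ0 k (PowerSeries.constantCoeff a)) := by
        change algebraMap (LaurentSeries k) L (HahnSeries.ofPowerSeries ℤ k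
          (PowerSeries.C (PowerSeries.constantCoeff a))) = _
        rw [HahnSeries.ofPowerSeries_C]
      rw [← this]
      rfl
    rw [heq] at hfin
    exact hfin
  · have hne : (ϖ : L) ≠ 0 := by
      intro h
      exact hϖ.ne_zero (Subtype.ext h)
    refine ⟨(ϖ : L), ϖ.2, hne, (hunit ϖ hϖ.not_isUnit).resolve_left hne, ?_⟩
    intro x hx
    obtain ⟨m, w, hw⟩ := h2 x hx
    have hw0 : ((w : integralClosure (PowerSeries k) L) : L) ≠ 0 := by
      intro h
      exact w.ne_zero (Subtype.ext h)
    refine ⟨m, ((w : integralClosure (PowerSeries k) L) : L), (w : integralClosure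
      (PowerSeries k) L).2, ?_, hw0, hw⟩
    have : ((w : integralClosure (PowerSeries k) L) : L)⁻¹ =
        (((w⁻¹ : (integralClosure (PowerSeries k) L)ˣ) : integralClosure (PowerSeries k) L) : L) := by
      apply inv_eq_of_mul_eq_one_right
      have h3 := congrArg (fun y : integralClosure (PowerSeries k) L => (y : L)) w.mul_inv
      exact h3
    rw [this]
    exact ((w⁻¹ : (integralClosure (PowerSeries k) L)ˣ) : integralClosure (PowerSeries k) L).2

end Pool.Agent.Helper21.DN
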